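import Mathlib
import Pool.Agent.Lib.MP_2a3b48_an.Defs
import Pool.Agent.Lib.MP_2a3b48_an.Gen2

/-!
For every `N ≥ 2` and every compact star-shaped set `K` in `ℂ^N` there are Cantor sets of volume
zero, arbitrarily close to `K` and outside `K`, whose rational hull contains `K` in its interior,
equals the polynomial hull, and is close to the polynomial hull of `K`.
-/

namespace Pool.Agent.Results.MP_2a3b48_an.CantorHullStar

open Pool.Agent.Lib.MP_2a3b48_an

theorem result (N : ℕ) (hN : 2 ≤ N) (K V W : Set (Fin N → ℂ)) (a : Fin N → ℂ)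
    (hK : IsCompact K) (ha : a ∈ K) (hs : StarConvex ℝ a K) (hV : IsOpen V) (hKV : K ⊆ V)
    (hW : IsOpen W) (hKW : polyHull K ⊆ W) :
    ∃ X : Set (Fin N → ℂ), IsCantorSet X ∧ MeasureTheory.volume X = 0 ∧ X ⊆ V \ K ∧
      K ⊆ interior (ratHull X) ∧ polyHull X = ratHull X ∧ polyHull X ⊆ W ∧
      StarConvex ℝ a (polyHull X) :=
  Gen.main hN hK ha hs hV hKV hW hKW

end Pool.Agent.Results.MP_2a3b48_an.CantorHullStar
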